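import Pool.Agent.E8helper59.TS.Stm3

/-! Project TS, piece TS23 (S_LINE): points on a line at pairwise distance at least `w`. -/

set_option autoImplicit false

namespace Pool.Agent.E8helper15.TS

open Pool.Agent.E8helper59.TS

theorem t_LINE : S_LINE := by
  intro k m j w F y l hw hl hball hsep
  have hco : ∀ t ∈ F, |t.2 j - y.2 j| ≤ l := by
    intro t ht
    have h1 : dist t y ≤ l := Metric.mem_closedBall.1 (hball t ht)
    have h2 : dist t.2 y.2 ≤ l := le_trans (by rw [Prod.dist_eq]; exact le_max_right _ _) h1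
    have h3 : dist (t.2 j) (y.2 j) ≤ l := le_trans (dist_le_pi_dist t.2 y.2 j) h2
    rwa [Real.dist_eq] at h3
  have hcard : F.card ≤ ⌊2 * l / w⌋₊ + 1 := by
    rw [← Finset.card_range (⌊2 * l / w⌋₊ + 1)]
    refine Finset.card_le_card_of_injOn (fun t => ⌊(t.2 j - (y.2 j - l)) / w⌋₊) ?_ ?_
    · intro t ht
      have h1 := abs_le.1 (hco t ht)
      simp only [Finset.coe_range, Set.mem_Iio]
      refine Nat.lt_succ_of_le (Nat.floor_le_floor ?_)
      exact div_le_div_of_nonneg_right (by linarith [h1.2]) hw.le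
    · intro t ht s hs hts
      by_contra hne
      have h1 := abs_le.1 (hco t ht)
      have h2 := abs_le.1 (hco s hs)
      have h3 := hsep t ht s hs hne
      have e1 : 0 ≤ (t.2 j - (y.2 j - l)) / w := div_nonneg (by linarith [h1.1]) hw.le
      have e2 : 0 ≤ (s.2 j - (y.2 j - l)) / w := div_nonneg (by linarith [h2.1]) hw.le
      simp only at hts
      have f1 := Nat.floor_le e1
      have f2 := Nat.lt_floor_add_one ((t.2 j - (y.2 j - l)) / w)
      have f3 := Nat.floor_le e2
      have f4 := Nat.lt_floor_add_one ((s.2 j - (y.2 j - l)) / w)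
      rw [hts] at f1 f2
      have g : |(t.2 j - (y.2 j - l)) / w - (s.2 j - (y.2 j - l)) / w| < 1 := by
        rw [abs_lt]
        constructor <;> linarith
      have g2 : (t.2 j - (y.2 j - l)) / w - (s.2 j - (y.2 j - l)) / w = (t.2 j - s.2 j) / w := by
        ring
      rw [g2, abs_div, abs_of_pos hw, div_lt_one hw] at g
      linarith
  have h1 : (F.card : ℝ) ≤ ((⌊2 * l / w⌋₊ + 1 : ℕ) : ℝ) := by exact_mod_cast hcard
  have h2 : ((⌊2 * l / w⌋₊ : ℕ) : ℝ) ≤ 2 * l / w := Nat.floor_le (by positivity)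
  have h3 : (F.card : ℝ) ≤ 2 * l / w + 1 := by
    push_cast at h1
    linarith
  calc (F.card : ℝ) * w ≤ (2 * l / w + 1) * w := mul_le_mul_of_nonneg_right h3 hw.le
    _ = 2 * l + w := by field_simp

end Pool.Agent.E8helper15.TS
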